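import Mathlib

/-!
# Randomized algorithms that access a matrix only through matrix-vector products

This file fixes the computational model of problem `MP_4289a5_an`.
-/

open MeasureTheory

namespace Pool.Agent.Helper97.MatVec

/-- A randomized adaptive algorithm for `n × n` complex matrices which accesses the
matrix only through matrix-vector products.  Its internal randomness is a point `ω` of a
probability space `(Ω, μ)`.  After `k` products, with answers `y 0, …, y (k-1)`, it either asks
for the product of the matrix with a further vector `x` (value `Sum.inl x`) or stops and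
returns a complex number `z` (value `Sum.inr z`).  The rule is (jointly) Borel measurable. -/
structure RandAlg (n : ℕ) where
  /-- the sample space of the internal randomness -/
  Ω : Type
  /-- its sigma-algebra -/
  mΩ : MeasurableSpace Ω
  /-- the law of the internal randomness -/
  μ : @Measure Ω mΩ
  /-- `μ` is a probability measure -/
  prob : IsProbabilityMeasure μ
  /-- the decision rule -/
  step : (k : ℕ) → Ω → (Fin k → Fin n → ℂ) → (Fin n → ℂ) ⊕ ℂ
  /-- the decision rule is measurable in the randomness and the answers seen so far -/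
  measurable_step : ∀ k, Measurable
    (fun p : Ω × (Fin k → Fin n → ℂ) => step k p.1 p.2)

namespace RandAlg

variable {n : ℕ}

/-- The first `k` answers which the algorithm sees when it is run on the matrix `A` with
internal randomness `ω` (answers after the algorithm has stopped are set to `0` and play no
role). -/
noncomputable def answers (alg : RandAlg n) (A : Matrix (Fin n) (Fin n) ℂ) (ω : alg.Ω) :
    (k : ℕ) → Fin k → Fin n → ℂ
  | 0 => Fin.elim0
  | k + 1 => Fin.snoc (alg.answers A ω k)
      (Sum.elim (fun x => A.mulVec x) (fun _ => 0) (alg.step k ω (alg.answers A ω k)))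

theorem answers_succ (alg : RandAlg n) (A : Matrix (Fin n) (Fin n) ℂ) (ω : alg.Ω) (k : ℕ) :
    alg.answers A ω (k + 1) = Fin.snoc (alg.answers A ω k)
      (Sum.elim (fun x => A.mulVec x) (fun _ => 0) (alg.step k ω (alg.answers A ω k))) := rfl

/-- Run on `A` with internal randomness `ω`, the algorithm makes exactly `k` matrix-vector
products and then stops and returns `z`. -/
def Returns (alg : RandAlg n) (A : Matrix (Fin n) (Fin n) ℂ) (ω : alg.Ω) (k : ℕ) (z : ℂ) :
    Prop :=
  (∀ i < k, ∃ x, alg.step i ω (alg.answers A ω i) = Sum.inl x) ∧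
    alg.step k ω (alg.answers A ω k) = Sum.inr z

end RandAlg

/-- `z` is an acceptable output for `A` at accuracy `ε`: some eigenvalue `l'` of `A` satisfies
`|l'| ≥ (1-ε) |l₁|` and `|z - l'| ≤ ε |l₁|`, where `l₁` is an eigenvalue of `A` of largest
modulus. -/
def Acceptable {n : ℕ} (A : Matrix (Fin n) (Fin n) ℂ) (ε : ℝ) (z : ℂ) : Prop :=
  ∃ l₁ ∈ spectrum ℂ A, (∀ l ∈ spectrum ℂ A, ‖l‖ ≤ ‖l₁‖) ∧
    ∃ l' ∈ spectrum ℂ A, (1 - ε) * ‖l₁‖ ≤ ‖l'‖ ∧ ‖z - l'‖ ≤ ε * ‖l₁‖

open scoped Matrix.Norms.L2Operator in
/-- The condition number `‖V‖ ‖V⁻¹‖` of a square matrix, for the operator 2-norm. -/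
noncomputable def cond {n : ℕ} (V : Matrix (Fin n) (Fin n) ℂ) : ℝ := ‖V‖ * ‖V⁻¹‖

end Pool.Agent.Helper97.MatVec
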