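import Mathlib
import Pool.Agent.Helper97.MatVecModel

/-!
# Auxiliary lemmas for the Krylov algorithm (known bound on the condition number)
-/

open MeasureTheory Finset
open scoped Matrix.Norms.L2Operator

namespace Pool.Agent.Helper97.Krylov

/-- Euclidean norm of a complex vector. -/
noncomputable def nrm {n : ℕ} (y : Fin n → ℂ) : ℝ :=
  ‖(WithLp.toLp 2 y : EuclideanSpace ℂ (Fin n))‖

variable {n : ℕ}

lemma nrm_nonneg (y : Fin n → ℂ) : 0 ≤ nrm y := norm_nonneg _

lemma nrm_sq (y : Fin n → ℂ) : nrm y ^ 2 = ∑ i, ‖y i‖ ^ 2 := by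
  unfold nrm
  rw [EuclideanSpace.norm_sq_eq]

lemma nrm_mulVec_le (A : Matrix (Fin n) (Fin n) ℂ) (y : Fin n → ℂ) :
    nrm (A.mulVec y) ≤ ‖A‖ * nrm y :=
  Matrix.l2_opNorm_mulVec A (WithLp.toLp 2 y)

lemma nrm_eq_zero {y : Fin n → ℂ} : nrm y = 0 ↔ y = 0 := by
  unfold nrm
  rw [norm_eq_zero]
  simp

/-- Cauchy-Schwarz without conjugation. -/
lemma norm_sum_mul_le (v y : Fin n → ℂ) : ‖∑ i, v i * y i‖ ≤ nrm v * nrm y := by
  have h1 : ‖∑ i, v i * y i‖ ≤ ∑ i, ‖v i‖ * ‖y i‖ := by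
    refine (norm_sum_le _ _).trans ?_
    simp
  refine h1.trans ?_
  have h2 : (∑ i, ‖v i‖ * ‖y i‖) ^ 2 ≤ (∑ i, ‖v i‖ ^ 2) * ∑ i, ‖y i‖ ^ 2 :=
    Finset.sum_mul_sq_le_sq_mul_sq _ _ _
  rw [← nrm_sq, ← nrm_sq, ← mul_pow] at h2
  exact le_of_sq_le_sq h2 (mul_nonneg (nrm_nonneg _) (nrm_nonneg _)) 


/-- the random start vector -/
noncomputable def start (ω : Fin n → Fin 10) : Fin n → ℂ := fun i => ((ω i : ℕ) : ℂ)

lemma nrm_start_le (ω : Fin n → Fin 10) : nrm (start ω) ≤ 9 * √n := by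
  have h : nrm (start ω) ^ 2 ≤ (9 * √n) ^ 2 := by
    rw [nrm_sq, mul_pow, Real.sq_sqrt (Nat.cast_nonneg n)]
    have : ∀ i ∈ (univ : Finset (Fin n)), ‖start ω i‖ ^ 2 ≤ 81 := by
      intro i _
      have h9 : ((ω i : ℕ) : ℝ) ≤ 9 := by
        have := (ω i).isLt
        exact_mod_cast (by omega : (ω i : ℕ) ≤ 9)
      have : ‖start ω i‖ = ((ω i : ℕ) : ℝ) := by simp [start]
      rw [this]
      nlinarith [Nat.cast_nonneg (α := ℝ) (ω i : ℕ)]
    refine (Finset.sum_le_card_nsmul _ _ _ this).trans ?_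
    simp
    linarith
  exact le_of_sq_le_sq h (by positivity)

/-- If `v ≠ 0`, then the linear functional `v` is not too small at most start vectors. -/
lemma card_bad_le (v : Fin n → ℂ) (hv : v ≠ 0) :
    10 * (univ.filter fun ω : Fin n → Fin 10 =>
      ‖∑ i, v i * start ω i‖ < nrm v / (2 * √n)).card ≤ 10 ^ n := by
  classical
  -- a coordinate of maximal modulus
  have hn : 0 < n := by
    rcases Nat.eq_zero_or_pos n with h | h
    · subst h; exact absurd (Subsingleton.elim v 0) hv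
    · exact h
  have : Nonempty (Fin n) := ⟨⟨0, hn⟩⟩
  obtain ⟨i0, hi0⟩ := Finite.exists_max (fun i => ‖v i‖)
  have hnorm : nrm v ≤ √n * ‖v i0‖ := by
    have : nrm v ^ 2 ≤ (√n * ‖v i0‖) ^ 2 := by
      rw [nrm_sq, mul_pow, Real.sq_sqrt (Nat.cast_nonneg n)]
      refine (Finset.sum_le_card_nsmul _ _ (‖v i0‖ ^ 2) ?_).trans ?_
      · intro i _
        have := hi0 i
        gcongr
      · simp
    exact le_of_sq_le_sq this (by positivity)
  have hpos : 0 < ‖v i0‖ := by
    by_contra h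
    have h0 : ‖v i0‖ = 0 := le_antisymm (not_lt.mp h) (norm_nonneg _)
    apply hv
    funext i
    have := hi0 i
    rw [h0] at this
    simpa using this
  have hsn : 0 < √(n : ℝ) := Real.sqrt_pos.mpr (by exact_mod_cast hn)
  have hhalf : nrm v / (2 * √n) ≤ ‖v i0‖ / 2 := by
    rw [div_le_div_iff₀ (by positivity) (by norm_num)]
    nlinarith
  set B := univ.filter fun ω : Fin n → Fin 10 =>
      ‖∑ i, v i * start ω i‖ < nrm v / (2 * √n) with hB
  -- injection from `B × Fin 10`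
  have hinj : Set.InjOn (fun p : (Fin n → Fin 10) × Fin 10 => Function.update p.1 i0 p.2)
      (B ×ˢ (univ : Finset (Fin 10)) : Finset _) := by
    rintro ⟨ω, t⟩ h1 ⟨ω', t'⟩ h2 heq
    simp only [coe_product, Set.mem_prod, mem_coe, coe_univ, Set.mem_univ, and_true] at h1 h2
    simp only at heq
    have ht : t = t' := by
      have := congrFun heq i0
      simpa using this
    have hoff : ∀ i, i ≠ i0 → ω i = ω' i := by
      intro i hi
      have := congrFun heq i
      simpa [Function.update_of_ne hi] using this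
    have hωω' : ω i0 = ω' i0 := by
      by_contra hne
      rw [hB, mem_filter] at h1 h2
      have e1 := h1.2
      have e2 := h2.2
      have hdiff : ∑ i, v i * start ω i - ∑ i, v i * start ω' i
          = v i0 * (((ω i0 : ℕ) : ℂ) - ((ω' i0 : ℕ) : ℂ)) := by
        rw [← Finset.sum_sub_distrib]
        rw [Finset.sum_eq_single i0]
        · simp [start]; ring
        · intro i _ hi
          simp [start, hoff i hi]
        · simp
      have hge : 1 ≤ ‖(((ω i0 : ℕ) : ℂ) - ((ω' i0 : ℕ) : ℂ))‖ := by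
        have hZ : (((ω i0 : ℕ) : ℤ) - ((ω' i0 : ℕ) : ℤ)) ≠ 0 := by
          intro h
          apply hne
          apply Fin.ext
          omega
        have : (((ω i0 : ℕ) : ℂ) - ((ω' i0 : ℕ) : ℂ))
            = ((((ω i0 : ℕ) : ℤ) - ((ω' i0 : ℕ) : ℤ) : ℤ) : ℂ) := by push_cast; ring
        rw [this, Complex.norm_intCast]
        exact_mod_cast Int.one_le_abs hZ
      have h3 : ‖v i0‖ ≤ ‖∑ i, v i * start ω i - ∑ i, v i * start ω' i‖ := by
        rw [hdiff, norm_mul]
        nlinarith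
      have h4 := norm_sub_le (∑ i, v i * start ω i) (∑ i, v i * start ω' i)
      linarith
    have : ω = ω' := by
      funext i
      by_cases hi : i = i0
      · subst hi; exact hωω'
      · exact hoff i hi
    rw [this, ht]
  have hcard := Finset.card_le_card_of_injOn _
    (t := (univ : Finset (Fin n → Fin 10))) (fun _ _ => mem_univ _) hinj
  rw [Finset.card_product] at hcard
  simp at hcard
  omega


lemma shift_pow_eq {A V : Matrix (Fin n) (Fin n) ℂ} {D : Fin n → ℂ} (hV : IsUnit V.det)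
    (hA : A = V * Matrix.diagonal D * V⁻¹) (z : ℂ) (d : ℕ) :
    (A + Matrix.scalar (Fin n) z) ^ d
      = V * Matrix.diagonal (fun i => (D i + z) ^ d) * V⁻¹ := by
  have h1 : A + Matrix.scalar (Fin n) z = V * Matrix.diagonal (fun i => D i + z) * V⁻¹ := by
    have : (Matrix.scalar (Fin n)) z = V * Matrix.scalar (Fin n) z * V⁻¹ := by
      rw [← (Matrix.scalar_commute z (fun r => mul_comm _ _) V).eq, Matrix.mul_assoc,
        Matrix.mul_nonsing_inv V hV, Matrix.mul_one]
    rw [this, hA, ← Matrix.add_mul, ← Matrix.mul_add, Matrix.scalar_apply, Matrix.diagonal_add]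
  induction d with
  | zero => simp [Matrix.mul_nonsing_inv V hV]
  | succ d ih =>
    rw [pow_succ, ih, h1]
    calc V * Matrix.diagonal (fun i => (D i + z) ^ d) * V⁻¹ *
          (V * Matrix.diagonal (fun i => D i + z) * V⁻¹)
        = V * Matrix.diagonal (fun i => (D i + z) ^ d) * (V⁻¹ * V) *
          (Matrix.diagonal (fun i => D i + z) * V⁻¹) := by
            simp only [Matrix.mul_assoc]
      _ = V * Matrix.diagonal (fun i => (D i + z) ^ (d + 1)) * V⁻¹ := by
            rw [Matrix.nonsing_inv_mul V hV, Matrix.mul_one]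
            rw [← Matrix.mul_assoc, Matrix.mul_assoc V, Matrix.diagonal_mul_diagonal]
            simp only [pow_succ]

/-- upper bound for the shifted power. -/
lemma nrm_shift_le {A V : Matrix (Fin n) (Fin n) ℂ} {D : Fin n → ℂ} (hV : IsUnit V.det)
    (hA : A = V * Matrix.diagonal D * V⁻¹) (z : ℂ) (d : ℕ) (x : Fin n → ℂ) (b : ℝ) (hb : 0 ≤ b)
    (hD : ∀ i, ‖D i + z‖ ≤ b) :
    nrm (((A + Matrix.scalar (Fin n) z) ^ d).mulVec x) ≤ ‖V‖ * ‖V⁻¹‖ * (b ^ d * nrm x) := by
  rw [shift_pow_eq hV hA]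
  refine (nrm_mulVec_le _ _).trans ?_
  have h1 : ‖V * Matrix.diagonal (fun i => (D i + z) ^ d) * V⁻¹‖ ≤ ‖V‖ * b ^ d * ‖V⁻¹‖ := by
    refine (norm_mul_le _ _).trans ?_
    gcongr
    refine (norm_mul_le _ _).trans ?_
    gcongr
    rw [Matrix.l2_opNorm_diagonal]
    rw [pi_norm_le_iff_of_nonneg (by positivity)]
    intro i
    rw [norm_pow]
    gcongr
    exact hD i
  calc ‖V * Matrix.diagonal (fun i => (D i + z) ^ d) * V⁻¹‖ * nrm x
      ≤ (‖V‖ * b ^ d * ‖V⁻¹‖) * nrm x := by gcongr; exact nrm_nonneg _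
    _ = _ := by ring

/-- lower bound for the shifted power. -/
lemma le_nrm_shift {A V : Matrix (Fin n) (Fin n) ℂ} {D : Fin n → ℂ} (hV : IsUnit V.det)
    (hA : A = V * Matrix.diagonal D * V⁻¹) (z : ℂ) (d : ℕ) (x : Fin n → ℂ) (j : Fin n) :
    ‖D j + z‖ ^ d * ‖∑ i, V⁻¹ j i * x i‖
      ≤ nrm (V⁻¹ j) * nrm (((A + Matrix.scalar (Fin n) z) ^ d).mulVec x) := by
  rw [shift_pow_eq hV hA]
  set y := (V * Matrix.diagonal (fun i => (D i + z) ^ d) * V⁻¹).mulVec x with hy
  have h1 : (V⁻¹.mulVec y) j = (D j + z) ^ d * ∑ i, V⁻¹ j i * x i := by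
    rw [hy, Matrix.mulVec_mulVec, ← Matrix.mul_assoc, ← Matrix.mul_assoc,
      Matrix.nonsing_inv_mul V hV, Matrix.one_mul, ← Matrix.mulVec_mulVec,
      Matrix.mulVec_diagonal]
    rfl
  have h2 : (V⁻¹.mulVec y) j = ∑ i, V⁻¹ j i * y i := rfl
  have h3 := norm_sum_mul_le (V⁻¹ j) y
  rw [← h2, h1, norm_mul, norm_pow] at h3
  exact h3


/-- the geometric heart: if `|l + z|` is nearly maximal, then `l` is near `z`. -/
lemma geom {η ε θ ρ r : ℝ} (hη : 0 < η) (hηε : 40 * η ≤ ε ^ 2) (hε0 : 0 < ε) (hε1 : ε < 1)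
    (hθ1 : 1 ≤ θ) (hθ : θ ≤ Real.exp η) (hρ : 0 ≤ ρ) (hr1 : ρ ≤ θ * r) (hr2 : r ≤ θ * ρ)
    {l z : ℂ} (hl : ‖l‖ ≤ ρ) (hz : ‖z‖ = r) (h : ρ + r * (1 - η) ≤ θ ^ 2 * ‖l + z‖) :
    (1 - ε) * ρ ≤ ‖l‖ ∧ ‖z - l‖ ≤ ε * ρ := by
  have hη1 : η ≤ 1 / 30 := by nlinarith
  have hε : 30 * η ≤ ε := by nlinarith
  have hθ2 : θ ≤ 1 + 1.1 * η := by
    have h1 : Real.exp η ≤ 1 + η + η ^ 2 := by
      have := Real.abs_exp_sub_one_sub_id_le (x := η) (by rw [abs_of_pos hη]; linarith)
      have := (abs_le.mp this).2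
      linarith
    nlinarith
  have hr0 : 0 ≤ r := by rw [← hz]; exact norm_nonneg _
  -- lower bound for |l+z|
  have hr3 : (1 - 1.1 * η) * ρ ≤ r := by
    have h1 : ρ ≤ (1 + 1.1 * η) * r := hr1.trans (by gcongr)
    nlinarith [mul_nonneg hr0 (sq_nonneg η), mul_nonneg hρ hη.le]
  have hβ : (2 - 7 * η) * ρ ≤ ‖l + z‖ := by
    have h1 : (2 - 2.1 * η) * ρ ≤ ρ + r * (1 - η) := by
      nlinarith [mul_nonneg hρ (sq_nonneg η), mul_nonneg hr0 hη.le,
        mul_le_mul_of_nonneg_right hr3 (show (0:ℝ) ≤ 1 - η by linarith)]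
    have h2 : θ ^ 2 ≤ 1 + 2.3 * η := by nlinarith
    have h3 : (2 - 2.1 * η) * ρ ≤ (1 + 2.3 * η) * ‖l + z‖ :=
      h1.trans (h.trans (by gcongr))
    have hn := norm_nonneg (l + z)
    nlinarith [mul_nonneg hρ (sq_nonneg η), mul_nonneg hn hη.le, mul_nonneg hρ hη.le,
      mul_nonneg (mul_nonneg hρ hη.le) hη.le]
  have hr4 : r ≤ (1 + 1.1 * η) * ρ := hr2.trans (by gcongr)
  constructor
  · have h1 : ‖l + z‖ ≤ ‖l‖ + ‖z‖ := norm_add_le _ _
    rw [hz] at h1
    nlinarith [mul_nonneg hρ hη.le]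
  · have hpar : ‖z - l‖ ^ 2 = 2 * ‖l‖ ^ 2 + 2 * ‖z‖ ^ 2 - ‖l + z‖ ^ 2 := by
      have := parallelogram_law_with_norm ℝ l z
      rw [norm_sub_rev z l]
      nlinarith
    have hsq : ‖z - l‖ ^ 2 ≤ (ε * ρ) ^ 2 := by
      rw [hpar, hz]
      have h1 : ‖l‖ ^ 2 ≤ ρ ^ 2 := by gcongr
      have h2 : r ^ 2 ≤ ((1 + 1.1 * η) * ρ) ^ 2 := by gcongr
      have h3 : ((2 - 7 * η) * ρ) ^ 2 ≤ ‖l + z‖ ^ 2 := by
        have : 0 ≤ (2 - 7 * η) * ρ := mul_nonneg (by linarith) hρ
        gcongr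
      have h4 : 2 + 2 * (1 + 1.1 * η) ^ 2 - (2 - 7 * η) ^ 2 ≤ ε ^ 2 := by nlinarith
      calc 2 * ‖l‖ ^ 2 + 2 * r ^ 2 - ‖l + z‖ ^ 2
          ≤ 2 * ρ ^ 2 + 2 * ((1 + 1.1 * η) * ρ) ^ 2 - ((2 - 7 * η) * ρ) ^ 2 := by linarith
        _ = (2 + 2 * (1 + 1.1 * η) ^ 2 - (2 - 7 * η) ^ 2) * ρ ^ 2 := by ring
        _ ≤ ε ^ 2 * ρ ^ 2 := by gcongr
        _ = (ε * ρ) ^ 2 := by ring
    exact le_of_sq_le_sq hsq (by positivity)


open MatVec

/-- the vector `(A + z)^d x` computed from the Krylov vectors. -/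
noncomputable def comb (d : ℕ) (x : Fin n → ℂ) (y : Fin d → Fin n → ℂ) (z : ℂ) : Fin n → ℂ :=
  ∑ i : Fin (d + 1), ((d.choose i : ℂ) * z ^ (d - (i : ℕ))) •
    (Fin.cons x y : Fin (d + 1) → Fin n → ℂ) i

/-- the candidate directions -/
noncomputable def dir (N : ℕ) (k : Fin (N + 1)) : ℂ :=
  Complex.exp (((2 * Real.pi * (k : ℕ) / N - Real.pi : ℝ) : ℂ) * Complex.I)

/-- the estimate of the spectral radius -/
noncomputable def rad (d : ℕ) (x : Fin n → ℂ) (y : Fin d → Fin n → ℂ) : ℝ :=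
  nrm (comb d x y 0) ^ (1 / (d : ℝ))

/-- the size of the shifted power in direction `k` -/
noncomputable def score (d N : ℕ) (x : Fin n → ℂ) (y : Fin d → Fin n → ℂ)
    (k : Fin (N + 1)) : ℝ :=
  nrm (comb d x y (rad d x y * dir N k))

/-- `k` is the first direction of maximal score -/
def IsBest (d N : ℕ) (x : Fin n → ℂ) (y : Fin d → Fin n → ℂ) (k : Fin (N + 1)) : Prop :=
  (∀ j, score d N x y j ≤ score d N x y k) ∧
    ∀ i < k, ¬ ∀ j, score d N x y j ≤ score d N x y i

open Classical in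
/-- the output -/
noncomputable def out (d N : ℕ) (x : Fin n → ℂ) (y : Fin d → Fin n → ℂ) : ℂ :=
  ∑ k : Fin (N + 1), if IsBest d N x y k then (rad d x y : ℂ) * dir N k else 0

lemma exists_best (d N : ℕ) (x : Fin n → ℂ) (y : Fin d → Fin n → ℂ) :
    ∃ k, IsBest d N x y k ∧ out d N x y = (rad d x y : ℂ) * dir N k := by
  classical
  have h1 : (univ.filter fun k : Fin (N + 1) => ∀ j, score d N x y j ≤ score d N x y k).Nonempty := by
    obtain ⟨k, hk⟩ := Finite.exists_max (score d N x y)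
    exact ⟨k, by simpa using hk⟩
  set k := Finset.min' _ h1 with hk
  have hk1 : ∀ j, score d N x y j ≤ score d N x y k := by
    have := Finset.min'_mem _ h1
    rw [mem_filter] at this
    exact this.2
  have hbest : IsBest d N x y k := by
    refine ⟨hk1, fun i hi hcon => ?_⟩
    have : k ≤ i := Finset.min'_le _ _ (by simpa using hcon)
    exact absurd hi (not_lt.mpr this)
  refine ⟨k, hbest, ?_⟩
  unfold out
  rw [Finset.sum_eq_single k]
  · simp [hbest]
  · intro i _ hi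
    have : ¬ IsBest d N x y i := by
      intro h
      rcases lt_or_gt_of_ne hi with hlt | hlt
      · exact hbest.2 i hlt h.1
      · exact h.2 k hlt hbest.1
    simp [this]
  · simp

lemma continuous_nrm : Continuous (nrm : (Fin n → ℂ) → ℝ) := by
  unfold nrm
  exact continuous_norm.comp (PiLp.continuous_toLp 2 _)

lemma measurable_comb (d : ℕ) (x : Fin n → ℂ) :
    Measurable (fun p : (Fin d → Fin n → ℂ) × ℂ => comb d x p.1 p.2) := by
  unfold comb
  apply Finset.measurable_sum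
  intro i _
  apply measurable_pi_lambda
  intro a
  simp only [Pi.smul_apply, smul_eq_mul]
  refine Measurable.mul (by fun_prop) ?_
  refine Fin.cases ?_ (fun j => ?_) i
  · simp
  · simp only [Fin.cons_succ]
    fun_prop

lemma measurable_rad (d : ℕ) (x : Fin n → ℂ) :
    Measurable (fun y : Fin d → Fin n → ℂ => rad d x y) := by
  unfold rad
  have h := (continuous_nrm (n := n)).measurable.comp ((measurable_comb d x).comp
    (measurable_id.prodMk (measurable_const (a := (0:ℂ)))))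
  exact h.pow_const _

lemma measurable_score (d N : ℕ) (x : Fin n → ℂ) (k : Fin (N + 1)) :
    Measurable (fun y : Fin d → Fin n → ℂ => score d N x y k) := by
  have h1 : Measurable (fun y : Fin d → Fin n → ℂ => ((rad d x y : ℂ) * dir N k)) :=
    (Complex.measurable_ofReal.comp (measurable_rad d x)).mul_const _
  have h2 : Measurable (fun y : Fin d → Fin n → ℂ => (y, ((rad d x y : ℂ) * dir N k))) :=
    measurable_id.prodMk h1
  have h3 := (measurable_comb d x).comp h2
  exact (continuous_nrm (n := n)).measurable.comp h3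

lemma measurable_out (d N : ℕ) (x : Fin n → ℂ) :
    Measurable (fun y : Fin d → Fin n → ℂ => out d N x y) := by
  classical
  unfold out
  apply Finset.measurable_sum
  intro k _
  have hS : ∀ k, MeasurableSet {y : Fin d → Fin n → ℂ | ∀ j, score d N x y j ≤ score d N x y k} := by
    intro k
    rw [Set.ofPred_forall]
    exact MeasurableSet.iInter fun j => measurableSet_le (measurable_score d N x j)
      (measurable_score d N x k)
  have hB : MeasurableSet {y : Fin d → Fin n → ℂ | IsBest d N x y k} := by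
    have : {y : Fin d → Fin n → ℂ | IsBest d N x y k} =
        {y | ∀ j, score d N x y j ≤ score d N x y k} ∩
          ⋂ i, ⋂ (_ : i < k), {y | ∀ j, score d N x y j ≤ score d N x y i}ᶜ := by
      ext y
      simp only [IsBest, Set.mem_ofPred_eq, Set.mem_inter_iff, Set.mem_iInter, Set.mem_compl_iff]
    rw [this]
    exact (hS k).inter (MeasurableSet.iInter fun i => MeasurableSet.iInter fun _ => (hS i).compl)
  refine Measurable.ite hB ?_ measurable_const
  exact (Complex.measurable_ofReal.comp (measurable_rad d x)).mul_const _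

/-- The algorithm: `d` products along a Krylov sequence with a random start vector, then pick
the best direction. -/
noncomputable def kry (n d N : ℕ) : RandAlg n where
  Ω := Fin n → Fin 10
  mΩ := inferInstance
  μ := (PMF.uniformOfFintype (Fin n → Fin 10)).toMeasure
  prob := inferInstance
  step := fun k => match k with
    | 0 => fun ω _ => Sum.inl (start ω)
    | k + 1 => fun ω y =>
      if k + 1 < d then Sum.inl (y (Fin.last k)) else Sum.inr (out (k + 1) N (start ω) y)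
  measurable_step := by
    intro k
    apply measurable_from_prod_countable_right
    intro ω
    match k with
    | 0 =>
      show Measurable fun _ => Sum.inl (start ω)
      exact measurable_const
    | k + 1 =>
      show Measurable fun y : Fin (k + 1) → Fin n → ℂ =>
        if k + 1 < d then (Sum.inl (y (Fin.last k)) : (Fin n → ℂ) ⊕ ℂ)
          else Sum.inr (out (k + 1) N (start ω) y)
      by_cases h : k + 1 < d
      · simp only [h, if_true]
        exact measurable_inl.comp (measurable_pi_apply _)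
      · simp only [h, if_false]
        exact measurable_inr.comp (measurable_out _ _ _)

lemma answers_kry (d N : ℕ) (A : Matrix (Fin n) (Fin n) ℂ) (ω : (kry n d N).Ω)
    (ω' : Fin n → Fin 10) (hω : ω = ω') :
    ∀ k ≤ d, ∀ i : Fin k, (kry n d N).answers A ω k i = (A ^ ((i : ℕ) + 1)).mulVec (start ω') := by
  intro k
  induction k with
  | zero => intro _ i; exact i.elim0
  | succ k ih =>
    intro hk i
    have ihk := ih (by omega)
    rw [RandAlg.answers_succ]
    refine Fin.lastCases ?_ (fun j => ?_) i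
    · rw [Fin.snoc_last]
      match k, ihk, hk with
      | 0, _, _ =>
        have : (kry n d N).step 0 ω ((kry n d N).answers A ω 0) = Sum.inl (start ω') := by
          rw [← hω]; rfl
        rw [this]
        simp
      | k + 1, ihk, hk =>
        have h3 : k + 1 < d := by omega
        have : (kry n d N).step (k + 1) ω ((kry n d N).answers A ω (k + 1))
            = Sum.inl ((kry n d N).answers A ω (k + 1) (Fin.last k)) := by
          show (if k + 1 < d then (Sum.inl _ : (Fin n → ℂ) ⊕ ℂ) else Sum.inr _) = _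
          rw [if_pos h3]
        rw [this, ihk (Fin.last k), Sum.elim_inl, Matrix.mulVec_mulVec, ← pow_succ']
        simp
    · rw [Fin.snoc_castSucc, ihk j]
      simp


lemma comb_eq (d : ℕ) (A : Matrix (Fin n) (Fin n) ℂ) (x : Fin n → ℂ) (y : Fin d → Fin n → ℂ)
    (hy : ∀ i : Fin d, y i = (A ^ ((i : ℕ) + 1)).mulVec x) (z : ℂ) :
    comb d x y z = ((A + Matrix.scalar (Fin n) z) ^ d).mulVec x := by
  have h1 : ∀ i : Fin (d + 1), (Fin.cons x y : Fin (d + 1) → Fin n → ℂ) i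
      = (A ^ (i : ℕ)).mulVec x := by
    intro i
    refine Fin.cases ?_ (fun j => ?_) i
    · simp
    · simp [hy j]
  unfold comb
  have hcomm : Commute A (Matrix.scalar (Fin n) z) :=
    (Matrix.scalar_commute z (fun r => mul_comm _ _) A).symm
  rw [hcomm.add_pow, ← Fin.sum_univ_eq_sum_range
    (fun m => A ^ m * (Matrix.scalar (Fin n) z) ^ (d - m) * ((d.choose m : ℕ) : Matrix (Fin n) (Fin n) ℂ)) (d + 1)]
  rw [Matrix.sum_mulVec]
  apply Finset.sum_congr rfl
  intro i _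
  rw [h1 i, ← Matrix.smul_mulVec]
  congr 1
  rw [← map_pow, Matrix.scalar_apply, ← Matrix.smul_one_eq_diagonal]
  rw [← nsmul_eq_mul', Matrix.mul_smul, Matrix.mul_one, ← Nat.cast_smul_eq_nsmul ℂ, smul_smul]


lemma norm_dir (N : ℕ) (k : Fin (N + 1)) : ‖dir N k‖ = 1 := by
  unfold dir
  rw [Complex.norm_exp_ofReal_mul_I]

lemma exists_dir (N : ℕ) (hN : 0 < N) (e : ℂ) (he : ‖e‖ = 1) :
    ∃ k : Fin (N + 1), ‖e - dir N k‖ ≤ 2 * Real.pi / N := by
  have hNr : (0 : ℝ) < N := by exact_mod_cast hN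
  have hpi := Real.pi_pos
  set t := Complex.arg e + Real.pi with ht
  have ht0 : 0 ≤ t := by have := Complex.neg_pi_lt_arg e; linarith
  have ht1 : t ≤ 2 * Real.pi := by have := Complex.arg_le_pi e; linarith
  set k := ⌊t * N / (2 * Real.pi)⌋₊ with hk
  have hx0 : 0 ≤ t * N / (2 * Real.pi) := by positivity
  have hkN : k < N + 1 := by
    have h1 : t * N / (2 * Real.pi) ≤ N := by
      rw [div_le_iff₀ (by positivity)]
      nlinarith
    have h2 : (k : ℝ) ≤ N := (Nat.floor_le hx0).trans h1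
    have h3 : k ≤ N := by exact_mod_cast h2
    omega
  refine ⟨⟨k, hkN⟩, ?_⟩
  have he' : e = Complex.exp (((Complex.arg e : ℝ) : ℂ) * Complex.I) := by
    have := Complex.norm_mul_exp_arg_mul_I e
    rw [he] at this
    simpa using this.symm
  have h1 : ‖e - dir N ⟨k, hkN⟩‖ ≤ |Complex.arg e - (2 * Real.pi * (k : ℕ) / N - Real.pi)| := by
    conv_lhs => rw [he']
    unfold dir
    set a := Complex.arg e
    set b := (2 * Real.pi * (k : ℕ) / N - Real.pi)
    have : Complex.exp ((a : ℂ) * Complex.I) - Complex.exp ((b : ℂ) * Complex.I)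
        = Complex.exp ((b : ℂ) * Complex.I) * (Complex.exp (Complex.I * ((a - b : ℝ) : ℂ)) - 1) := by
      rw [mul_sub, ← Complex.exp_add, mul_one]
      congr 2
      push_cast
      ring
    rw [this, norm_mul, Complex.norm_exp_ofReal_mul_I, one_mul]
    exact Real.norm_exp_I_mul_ofReal_sub_one_le
  refine h1.trans ?_
  have h2 := Nat.floor_le hx0
  have h3 := Nat.lt_floor_add_one (t * N / (2 * Real.pi))
  rw [← hk] at h2 h3
  have h4 : Complex.arg e - (2 * Real.pi * (k : ℕ) / N - Real.pi)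
      = (2 * Real.pi / N) * (t * N / (2 * Real.pi) - k) := by
    rw [ht]
    field_simp
    ring
  rw [h4, abs_mul, abs_of_pos (by positivity : 0 < 2 * Real.pi / N), abs_of_nonneg (by linarith)]
  have : 0 < 2 * Real.pi / N := by positivity
  nlinarith

lemma spectrum_eq {A V : Matrix (Fin n) (Fin n) ℂ} {D : Fin n → ℂ} (hV : IsUnit V.det)
    (hA : A = V * Matrix.diagonal D * V⁻¹) : spectrum ℂ A = Set.range D := by
  have hu : IsUnit V := (Matrix.isUnit_iff_isUnit_det V).mpr hV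
  obtain ⟨u, hu⟩ := hu
  have : A = (u : Matrix (Fin n) (Fin n) ℂ) * Matrix.diagonal D * ((u⁻¹ : (Matrix (Fin n) (Fin n) ℂ)ˣ) : Matrix (Fin n) (Fin n) ℂ) := by
    rw [hA, ← hu, Matrix.coe_units_inv]
  rw [this, spectrum.units_conjugate]
  exact spectrum_diagonal D

/-- deterministic part of the analysis. -/
lemma main_det {A V : Matrix (Fin n) (Fin n) ℂ} {D : Fin n → ℂ} {ε K : ℝ} {d N : ℕ}
    (hn : 1 ≤ n) (hε0 : 0 < ε) (hε1 : ε < 1) (hK : 1 ≤ K)
    (hV : IsUnit V.det) (hA : A = V * Matrix.diagonal D * V⁻¹) (hcond : ‖V‖ * ‖V⁻¹‖ ≤ K)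
    (hd : 40 * Real.log (20 * n * K) / ε ^ 2 ≤ d) (hN : 2 * Real.pi / N ≤ ε ^ 2 / 40) (hN0 : 0 < N)
    (j1 : Fin n) (hj1 : ∀ j, ‖D j‖ ≤ ‖D j1‖) (x : Fin n → ℂ) (hx : nrm x ≤ 9 * √n)
    (hgood : nrm (V⁻¹ j1) / (2 * √n) ≤ ‖∑ i, V⁻¹ j1 i * x i‖)
    (y : Fin d → Fin n → ℂ) (hy : ∀ i : Fin d, y i = (A ^ ((i : ℕ) + 1)).mulVec x) :
    Acceptable A ε (out d N x y) := by
  have hnr : (1 : ℝ) ≤ n := by exact_mod_cast hn
  set C : ℝ := 20 * n * K with hC
  have hC20 : 20 ≤ C := by rw [hC]; nlinarith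
  set L := Real.log C with hL
  have hL1 : 1 ≤ L := by
    rw [hL, Real.le_log_iff_exp_le (by linarith)]
    have := Real.exp_one_lt_d9
    linarith
  set η := ε ^ 2 / 40 with hη
  have hη0 : 0 < η := by positivity
  have hd0 : (0 : ℝ) < d := lt_of_lt_of_le (by positivity) hd
  have hd0' : d ≠ 0 := by rintro rfl; simp at hd0
  set θ := Real.exp (L / d) with hθ
  have hθd : θ ^ d = C := by
    rw [hθ, ← Real.exp_nat_mul, mul_div_cancel₀ _ hd0.ne', hL, Real.exp_log (by linarith)]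
  have hθ1 : 1 ≤ θ := Real.one_le_exp (by positivity)
  have hθη : θ ≤ Real.exp η := by
    rw [hθ]
    apply Real.exp_le_exp.mpr
    rw [div_le_iff₀ hd0]
    rw [div_le_iff₀ (by positivity)] at hd
    rw [hη]
    nlinarith
  have hsn : 0 < √(n : ℝ) := Real.sqrt_pos.mpr (by linarith)
  have hsn1 : √(n : ℝ) ≤ n := by
    rw [Real.sqrt_le_left (by linarith)]
    nlinarith
  -- the two basic estimates
  have hw : 0 < nrm (V⁻¹ j1) := by
    refine lt_of_le_of_ne (nrm_nonneg _) (fun h => ?_)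
    have h0 : V⁻¹ j1 = 0 := nrm_eq_zero.mp h.symm
    have h1 : (V⁻¹ * V) j1 j1 = 1 := by rw [Matrix.nonsing_inv_mul V hV]; simp
    rw [Matrix.mul_apply] at h1
    simp [h0] at h1
  have ha : ∀ z, ‖D j1 + z‖ ^ d ≤ θ ^ d * nrm (comb d x y z) := by
    intro z
    rw [comb_eq d A x y hy z, hθd]
    have h1 := le_nrm_shift hV hA z d x j1
    set s := nrm (((A + Matrix.scalar (Fin n) z) ^ d).mulVec x)
    have hs : 0 ≤ s := nrm_nonneg _
    have h2 : ‖D j1 + z‖ ^ d * (nrm (V⁻¹ j1) / (2 * √n)) ≤ nrm (V⁻¹ j1) * s :=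
      (mul_le_mul_of_nonneg_left hgood (by positivity)).trans h1
    have h3 : ‖D j1 + z‖ ^ d ≤ 2 * √n * s := by
      have : ‖D j1 + z‖ ^ d * (nrm (V⁻¹ j1) / (2 * √n))
          = (‖D j1 + z‖ ^ d / (2 * √n)) * nrm (V⁻¹ j1) := by ring
      rw [this, mul_comm (nrm (V⁻¹ j1)) s] at h2
      have h4 := le_of_mul_le_mul_right h2 hw
      rw [div_le_iff₀ (by positivity)] at h4
      linarith
    refine h3.trans ?_
    gcongr
    rw [hC]
    nlinarith
  have hb : ∀ z b, 0 ≤ b → (∀ j, ‖D j + z‖ ≤ b) → nrm (comb d x y z) ≤ (θ * b) ^ d := by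
    intro z b hb0 hbj
    rw [comb_eq d A x y hy z, mul_pow, hθd]
    refine (nrm_shift_le hV hA z d x b hb0 hbj).trans ?_
    have h1 : 0 ≤ b ^ d * nrm x := mul_nonneg (by positivity) (nrm_nonneg _)
    calc ‖V‖ * ‖V⁻¹‖ * (b ^ d * nrm x) ≤ K * (b ^ d * (9 * √n)) := by gcongr
      _ = (9 * √n * K) * b ^ d := by ring
      _ ≤ C * b ^ d := by
        gcongr
        rw [hC]
        nlinarith
  -- the radius estimate
  set r := rad d x y with hr
  have hrd : r ^ d = nrm (comb d x y 0) := by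
    rw [hr, rad, one_div, Real.rpow_inv_natCast_pow (nrm_nonneg _) hd0']
  have hr0 : 0 ≤ r := Real.rpow_nonneg (nrm_nonneg _) _
  set ρ := ‖D j1‖ with hρ
  have hρ0 : 0 ≤ ρ := norm_nonneg _
  have hr1 : ρ ≤ θ * r := by
    have h1 := ha 0
    rw [add_zero, ← hrd, ← mul_pow] at h1
    exact le_of_pow_le_pow_left₀ hd0' (by positivity) h1
  have hr2 : r ≤ θ * ρ := by
    have h1 := hb 0 ρ hρ0 (fun j => by simpa using hj1 j)
    rw [← hrd] at h1
    exact le_of_pow_le_pow_left₀ hd0' (by positivity) h1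
  -- the best direction
  obtain ⟨k, hk, hout⟩ := exists_best d N x y
  set z := out d N x y with hz
  have hznorm : ‖z‖ = r := by
    rw [hout, norm_mul, norm_dir, mul_one, Complex.norm_real, Real.norm_of_nonneg hr0]
  -- phase of the top eigenvalue
  obtain ⟨e, he, heρ⟩ : ∃ e : ℂ, ‖e‖ = 1 ∧ D j1 = ρ * e := by
    by_cases h0 : D j1 = 0
    · exact ⟨1, by simp, by simp [hρ, h0]⟩
    · refine ⟨D j1 / ρ, ?_, ?_⟩
      · have : ‖D j1‖ ≠ 0 := norm_ne_zero_iff.mpr h0
        rw [norm_div, Complex.norm_real, hρ, norm_norm, div_self this]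
      · have : (ρ : ℂ) ≠ 0 := by
          rw [Complex.ofReal_ne_zero]; exact norm_ne_zero_iff.mpr h0
        field_simp
  obtain ⟨i, hi⟩ := exists_dir N hN0 e he
  have hi' : ‖e - dir N i‖ ≤ η := hi.trans hN
  have hlow : ρ + r * (1 - η) ≤ ‖D j1 + r * dir N i‖ := by
    have h1 : D j1 + r * dir N i = ((ρ + r : ℝ) : ℂ) * e - r * (e - dir N i) := by
      rw [heρ]; push_cast; ring
    have h2 : ‖((ρ + r : ℝ) : ℂ) * e‖ = ρ + r := by
      rw [norm_mul, he, mul_one, Complex.norm_real, Real.norm_of_nonneg (by positivity)]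
    have h3 : ‖(r : ℂ) * (e - dir N i)‖ ≤ r * η := by
      rw [norm_mul, Complex.norm_real, Real.norm_of_nonneg hr0]
      gcongr
    rw [h1]
    have := norm_sub_norm_le (((ρ + r : ℝ) : ℂ) * e) (r * (e - dir N i))
    rw [h2] at this
    linarith
  -- the eigenvalue which is nearly aligned
  have : Nonempty (Fin n) := ⟨j1⟩
  obtain ⟨j2, hj2⟩ := Finite.exists_max (fun j => ‖D j + z‖)
  have hup : ‖D j1 + r * dir N i‖ ≤ θ ^ 2 * ‖D j2 + z‖ := by
    have h1 := ha (r * dir N i)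
    have h2 : nrm (comb d x y (r * dir N i)) ≤ nrm (comb d x y z) := by
      rw [hout]
      exact hk.1 i
    have h3 := hb z ‖D j2 + z‖ (norm_nonneg _) hj2
    have h4 : ‖D j1 + r * dir N i‖ ^ d ≤ (θ ^ 2 * ‖D j2 + z‖) ^ d := by
      calc ‖D j1 + r * dir N i‖ ^ d ≤ θ ^ d * nrm (comb d x y (r * dir N i)) := h1
        _ ≤ θ ^ d * nrm (comb d x y z) := by gcongr
        _ ≤ θ ^ d * (θ * ‖D j2 + z‖) ^ d := by gcongr
        _ = _ := by rw [← mul_pow]; ring
    exact le_of_pow_le_pow_left₀ hd0' (by positivity) h4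
  have hgeom := geom (η := η) (ε := ε) (θ := θ) (ρ := ρ) (r := r) hη0 (by rw [hη]; linarith)
    hε0 hε1 hθ1 hθη hρ0 hr1 hr2 (l := D j2) (z := z) (hj1 j2) hznorm (hlow.trans hup)
  have hspec := spectrum_eq hV hA
  refine ⟨D j1, by rw [hspec]; exact ⟨j1, rfl⟩, ?_, D j2, by rw [hspec]; exact ⟨j2, rfl⟩, ?_, ?_⟩
  · intro l hl
    rw [hspec] at hl
    obtain ⟨j, rfl⟩ := hl
    exact hj1 j
  · exact hgeom.1
  · exact hgeom.2

end Pool.Agent.Helper97.Krylov
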